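import Pool.Agent.TH999.GCR.Records

/-!
# The main inequality with an explicit rate
-/

set_option autoImplicit false

namespace Pool.Agent.TH999.GCR

open Finset Pool.Agent.H399R2 Real

/-- choice of `k` for a given length -/
theorem choose_k (c : ℝ) (hc : 0 < c) (M : ℕ) : ∃ C : ℝ, 0 < C ∧ ∀ X : ℝ, 3 ≤ X → ∃ k : ℕ,
    (M : ℝ) * (4 ^ (2 ^ k) + 1) + X / (c * (3 / 2) ^ k) ≤ C * (X / √(Real.log X)) := by
  refine ⟨5 * M + 3 / c + 16 * (5 * M + 16 / c), by positivity, ?_⟩
  intro X hX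
  have hlog1 : 1 ≤ Real.log X := by
    rw [Real.le_log_iff_exp_le (by linarith)]
    linarith [Real.exp_one_lt_d9]
  have hX0 : 0 < X := by linarith
  have hsq1 : 1 ≤ √(Real.log X) := Real.one_le_sqrt.mpr hlog1
  have hsq0 : 0 < √(Real.log X) := by linarith
  have hlogX : Real.log X ≤ X := (Real.log_le_sub_one_of_pos hX0).trans (by linarith)
  have hsqX : √(Real.log X) ≤ √X := Real.sqrt_le_sqrt hlogX
  have hsX : √X * √X = X := Real.mul_self_sqrt hX0.le
  -- `√X ≤ X / √log X`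
  have hroot : √X ≤ X / √(Real.log X) := by
    rw [le_div_iff₀ hsq0]
    calc √X * √(Real.log X) ≤ √X * √X := mul_le_mul_of_nonneg_left hsqX (Real.sqrt_nonneg _)
      _ = X := hsX
  have hM0 : (0 : ℝ) ≤ M := Nat.cast_nonneg _
  have hY0 : 0 < X / √(Real.log X) := by positivity
  have hone : 1 ≤ X / √(Real.log X) := by
    refine le_trans ?_ hroot
    rw [Real.one_le_sqrt]
    linarith
  rcases lt_or_ge X 16 with h16 | h16
  · refine ⟨0, ?_⟩
    have h1 : X ≤ 16 * (X / √(Real.log X)) := by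
      calc X ≤ 16 * 1 := by linarith
        _ ≤ _ := by linarith
    have h2 : X / c ≤ (16 / c) * (X / √(Real.log X)) := by
      rw [div_mul_eq_mul_div]
      exact div_le_div_of_nonneg_right h1 hc.le
    have h3 : (5 : ℝ) * M ≤ (5 * M) * (X / √(Real.log X)) := by nlinarith
    have h4 : (0 : ℝ) ≤ (3 / c + 16 * (5 * M) + 15 * (16 / c)) * (X / √(Real.log X)) := by positivity
    have e1 : (M : ℝ) * (4 ^ (2 ^ 0) + 1) + X / (c * (3 / 2) ^ 0) = 5 * M + X / c := by
      norm_num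
      ring
    rw [e1]
    have e2 : (5 * M + 3 / c + 16 * (5 * M + 16 / c)) * (X / √(Real.log X)) =
        (5 * M) * (X / √(Real.log X)) + (16 / c) * (X / √(Real.log X)) +
          (3 / c + 16 * (5 * M) + 15 * (16 / c)) * (X / √(Real.log X)) := by ring
    rw [e2]
    linarith
  · -- the largest `k` with `4 ^ (2 ^ (k+1)) ≤ X`
    have hex : ∃ k : ℕ, X < 4 ^ (2 ^ (k + 2)) := by
      obtain ⟨n, hn⟩ := pow_unbounded_of_one_lt X (by norm_num : (1 : ℝ) < 4)
      refine ⟨n, hn.trans_le ?_⟩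
      apply pow_le_pow_right₀ (by norm_num)
      have : n < 2 ^ n := n.lt_two_pow_self
      have h2 : 2 ^ n ≤ 2 ^ (n + 2) := Nat.pow_le_pow_right (by norm_num) (by omega)
      omega
    classical
    set k := Nat.find hex with hk
    have hk1 : X < 4 ^ (2 ^ (k + 2)) := Nat.find_spec hex
    have hk2 : (4 : ℝ) ^ (2 ^ (k + 1)) ≤ X := by
      rcases Nat.eq_zero_or_pos k with h0 | h0
      · rw [h0]
        norm_num
        exact h16
      · have h1 := Nat.find_min hex (m := k - 1) (by omega)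
        push Not at h1
        have e1 : k - 1 + 2 = k + 1 := by omega
        rw [e1] at h1
        exact h1
    refine ⟨k, ?_⟩
    have h4 : (4 : ℝ) ^ (2 ^ k) ≤ √X := by
      apply Real.le_sqrt_of_sq_le
      rw [← pow_mul, ← pow_succ]
      exact hk2
    have hlog2 : Real.log X ≤ 6 * 2 ^ k := by
      have h1 : Real.log X < Real.log (4 ^ (2 ^ (k + 2))) := Real.log_lt_log hX0 hk1
      rw [Real.log_pow] at h1
      have h2 : Real.log 4 = 2 * Real.log 2 := by
        rw [show (4 : ℝ) = 2 ^ 2 by norm_num, Real.log_pow]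
        norm_num
      have h3 := Real.log_two_lt_d9
      rw [h2] at h1
      push_cast at h1
      have h5 : (2 : ℝ) ^ (k + 2) = 4 * 2 ^ k := by ring
      rw [h5] at h1
      have h6 : (0 : ℝ) < 2 ^ k := by positivity
      nlinarith
    have h32 : √(Real.log X) ≤ 3 * (3 / 2) ^ k := by
      apply Real.sqrt_le_iff.mpr
      refine ⟨by positivity, ?_⟩
      have h1 : (2 : ℝ) ^ k ≤ ((3 / 2) ^ k) ^ 2 := by
        rw [← pow_mul, Nat.mul_comm, pow_mul]
        apply pow_le_pow_left₀ (by norm_num)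
        norm_num
      calc Real.log X ≤ 6 * 2 ^ k := hlog2
        _ ≤ 9 * ((3 / 2) ^ k) ^ 2 := by
            have h6 : (0 : ℝ) < 2 ^ k := by positivity
            linarith
        _ = (3 * (3 / 2) ^ k) ^ 2 := by ring
    have h5 : X / (c * (3 / 2) ^ k) ≤ (3 / c) * (X / √(Real.log X)) := by
      rw [div_le_iff₀ (by positivity)]
      have e1 : (3 / c) * (X / √(Real.log X)) * (c * (3 / 2) ^ k) =
          (X / √(Real.log X)) * (3 * (3 / 2) ^ k) := by
        field_simp
      rw [e1]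
      calc X = (X / √(Real.log X)) * √(Real.log X) := by field_simp
        _ ≤ _ := mul_le_mul_of_nonneg_left h32 hY0.le
    have h6 : (M : ℝ) * (4 ^ (2 ^ k) + 1) ≤ (2 * M) * (X / √(Real.log X)) := by
      have : (4 : ℝ) ^ (2 ^ k) + 1 ≤ 2 * (X / √(Real.log X)) := by linarith
      calc (M : ℝ) * (4 ^ (2 ^ k) + 1) ≤ M * (2 * (X / √(Real.log X))) :=
            mul_le_mul_of_nonneg_left this hM0
        _ = _ := by ring
    have h7 : (0 : ℝ) ≤ (3 * M + 16 * (5 * M + 16 / c)) * (X / √(Real.log X)) := by positivity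
    have e2 : (5 * M + 3 / c + 16 * (5 * M + 16 / c)) * (X / √(Real.log X)) =
        (2 * M) * (X / √(Real.log X)) + (3 / c) * (X / √(Real.log X)) +
          (3 * M + 16 * (5 * M + 16 / c)) * (X / √(Real.log X)) := by ring
    rw [e2]
    linarith

/-- **Main inequality with a rate.** The last jump `l` before the end of a good segment of length
at most `X ≥ 3` satisfies `Φ(l) ≤ Φ(s) + C X / √(log X)`, with `C` depending on `M` and `κ` only. -/
theorem main_rate (M κ : ℕ) (hM : 0 < M) : ∃ C : ℝ, 0 < C ∧ ∀ (x : ℕ → ℕ) (V : ℕ → ℤ) (s e : ℕ)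
    (per : ℕ → ℕ) (R : ℕ → Finset ℕ), Good x V s e M κ per R → ∀ X : ℝ, 3 ≤ X →
    (e : ℝ) ≤ X + s →
    ∃ l, s ≤ l ∧ l ≤ e ∧ (∀ i, l ≤ i → i < e → Int.gcd (x i) (V (i + 1)) = 1) ∧
      ((M + 1) * l + M * x l : ℝ) ≤ (M + 1) * s + M * x s + C * (X / √(Real.log X)) := by
  obtain ⟨c, hc, h⟩ := main M κ hM
  obtain ⟨C, hC, hk⟩ := choose_k c hc M
  refine ⟨C, hC, ?_⟩
  intro x V s e per R hg X hX heX
  obtain ⟨k, hk⟩ := hk X hX
  obtain ⟨l, hsl, hle, htr, hl⟩ := h x V s e per R hg k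
  refine ⟨l, hsl, hle, htr, hl.trans ?_⟩
  have h1 : ((l : ℝ) - s) / (c * (3 / 2) ^ k) ≤ X / (c * (3 / 2) ^ k) := by
    apply div_le_div_of_nonneg_right _ (by positivity)
    have : (l : ℝ) ≤ e := by exact_mod_cast hle
    linarith
  linarith

/-- `√Y ≤ 3 X / √(log X)` if `3 ≤ X` and `Y ≤ 9 X` -/
theorem sqrt_le_rate {X Y : ℝ} (hX : 3 ≤ X) (hY : Y ≤ 9 * X) : √Y ≤ 3 * (X / √(Real.log X)) := by
  have hX0 : 0 < X := by linarith
  have hlog1 : 1 ≤ Real.log X := by
    rw [Real.le_log_iff_exp_le (by linarith)]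
    linarith [Real.exp_one_lt_d9]
  have hsq1 : 1 ≤ √(Real.log X) := Real.one_le_sqrt.mpr hlog1
  have hsq0 : 0 < √(Real.log X) := by linarith
  have hlogX : Real.log X ≤ X := (Real.log_le_sub_one_of_pos hX0).trans (by linarith)
  have hsqX : √(Real.log X) ≤ √X := Real.sqrt_le_sqrt hlogX
  have hsX : √X * √X = X := Real.mul_self_sqrt hX0.le
  have hroot : √X ≤ X / √(Real.log X) := by
    rw [le_div_iff₀ hsq0]
    calc √X * √(Real.log X) ≤ √X * √X := mul_le_mul_of_nonneg_left hsqX (Real.sqrt_nonneg _)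
      _ = X := hsX
  calc √Y ≤ √(9 * X) := Real.sqrt_le_sqrt hY
    _ = 3 * √X := by
        rw [Real.sqrt_mul (by norm_num), show (9 : ℝ) = 3 ^ 2 by norm_num,
          Real.sqrt_sq (by norm_num)]
    _ ≤ _ := by linarith

theorem rate_ge_one {X : ℝ} (hX : 3 ≤ X) : 1 ≤ X / √(Real.log X) := by
  have h := sqrt_le_rate hX (Y := 9) (by linarith)
  rw [show (9 : ℝ) = 3 ^ 2 by norm_num, Real.sqrt_sq (by norm_num)] at h
  linarith

/-- the terms decrease by at least one in each step -/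
theorem decr {x : ℕ → ℕ} {V : ℕ → ℤ} {s e : ℕ} (h : Seg x V s e) :
    ∀ n, s ≤ n → n ≤ e → x n + (n - s) ≤ x s := by
  intro n hsn
  induction n, hsn using Nat.le_induction with
  | base => intro _; omega
  | succ n hsn ih =>
    intro hne
    have h1 := ih (by omega)
    have h2 := h.step n hsn (by omega)
    have h3 := h.gcd_pos hsn (by omega : n < e)
    omega

end Pool.Agent.TH999.GCR
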