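import Mathlib

/-!
# An elementary sieve: counting integers that avoid residue classes modulo all primes up to `2^k`
-/

set_option autoImplicit false

namespace Pool.Agent.TH999.GCR

open Finset

/-- number of terms `t < D` of the progression `a + q t` which avoid the classes `R p`, `p ∈ S` -/
def cnt (S : Finset ℕ) (R : ℕ → Finset ℕ) (a q D : ℕ) : ℕ :=
  #{t ∈ range D | ∀ p ∈ S, (a + q * t) % p ∉ R p}

/-- Removing at most `w p < p` residue classes for each prime `p ∈ S` from a progression of length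
`D` leaves at least `∏ (p - w p) * ⌊D / ∏ p⌋` terms. -/
theorem cnt_lower (R : ℕ → Finset ℕ) (w : ℕ → ℕ) (S : Finset ℕ) :
    (∀ p ∈ S, p.Prime) → (∀ p ∈ S, #(R p) ≤ w p) →
    ∀ a q D : ℕ, (∀ p ∈ S, Nat.Coprime q p) →
      (∏ p ∈ S, (p - w p)) * (D / ∏ p ∈ S, p) ≤ cnt S R a q D := by
  classical
  induction S using Finset.induction_on with
  | empty =>
    intro _ _ a q D _
    simp [cnt]
  | insert r S hr ih =>
    intro hP hw a q D hq
    have hrp : r.Prime := hP r (mem_insert_self _ _)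
    have hr0 : 0 < r := hrp.pos
    have hqr : Nat.Coprime q r := hq r (mem_insert_self _ _)
    rw [prod_insert hr, prod_insert hr, ← Nat.div_div_eq_div_mul]
    set D' := D / r with hD'
    have hD'r : r * D' ≤ D := Nat.mul_div_le D r
    -- good residues
    set G := {c ∈ range r | (a + q * c) % r ∉ R r} with hG
    have hGc : r - w r ≤ #G := by
      have h1 : #{c ∈ range r | (a + q * c) % r ∈ R r} ≤ #(R r) := by
        apply Finset.card_le_card_of_injOn (fun c => (a + q * c) % r)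
        · intro c hc
          simp only [coe_filter, Set.mem_ofPred_eq] at hc
          exact hc.2
        · intro c hc d hd hcd
          simp only [coe_filter, Set.mem_ofPred_eq, mem_range] at hc hd
          have h2 : a + q * c ≡ a + q * d [MOD r] := hcd
          have h3 : q * c ≡ q * d [MOD r] := Nat.ModEq.add_left_cancel' a h2
          have h4 : c ≡ d [MOD r] := Nat.ModEq.cancel_left_of_coprime
            (by rw [Nat.gcd_comm]; exact hqr) h3
          have h5 : c % r = d % r := h4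
          rwa [Nat.mod_eq_of_lt hc.1, Nat.mod_eq_of_lt hd.1] at h5
      have h2 : #{c ∈ range r | (a + q * c) % r ∈ R r} + #G = r := by
        have := Finset.card_filter_add_card_filter_not (s := range r)
          (fun c => (a + q * c) % r ∈ R r)
        rw [card_range] at this
        exact this
      have h3 := hw r (mem_insert_self _ _)
      omega
    -- the count over the sub-progressions
    have h1 : ∑ c ∈ G, cnt S R (a + q * c) (q * r) D' ≤ cnt (insert r S) R a q D := by
      unfold cnt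
      rw [← card_sigma]
      apply Finset.card_le_card_of_injOn (fun (z : (_ : ℕ) × ℕ) => z.1 + r * z.2)
      · rintro ⟨c, t⟩ hz
        simp only [coe_sigma, Set.mem_sigma_iff, mem_coe, hG, mem_filter, mem_range] at hz
        obtain ⟨⟨hc1, hc2⟩, ht1, ht2⟩ := hz
        simp only [coe_filter, Set.mem_ofPred_eq, mem_range]
        refine ⟨?_, ?_⟩
        · have : r * (t + 1) ≤ r * D' := Nat.mul_le_mul_left _ ht1
          have : r * (t + 1) = r * t + r := by ring
          omega
        · intro p hp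
          rcases mem_insert.mp hp with rfl | hp
          · have e1 : a + q * (c + p * t) = (a + q * c) + p * (q * t) := by ring
            rw [e1, Nat.add_mul_mod_self_left]
            exact hc2
          · have e1 : a + q * (c + r * t) = a + q * c + q * r * t := by ring
            rw [e1]
            exact ht2 p hp
      · rintro ⟨c, t⟩ hz ⟨d, u⟩ hz' hzz
        simp only [coe_sigma, Set.mem_sigma_iff, mem_coe, hG, mem_filter, mem_range] at hz hz'
        simp only at hzz
        have h2 : c = d := by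
          have h3 : (c + r * t) % r = (d + r * u) % r := by rw [hzz]
          rw [Nat.add_mul_mod_self_left, Nat.add_mul_mod_self_left, Nat.mod_eq_of_lt hz.1.1,
            Nat.mod_eq_of_lt hz'.1.1] at h3
          exact h3
        subst h2
        have h3 : r * t = r * u := by omega
        have h4 : t = u := Nat.eq_of_mul_eq_mul_left hr0 h3
        subst h4
        rfl
    have h2 : ∀ c ∈ G, (∏ p ∈ S, (p - w p)) * (D' / ∏ p ∈ S, p) ≤
        cnt S R (a + q * c) (q * r) D' := by
      intro c _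
      apply ih (fun p hp => hP p (mem_insert_of_mem hp)) (fun p hp => hw p (mem_insert_of_mem hp))
      intro p hp
      have hp1 := hP p (mem_insert_of_mem hp)
      have hne : r ≠ p := fun h => hr (h ▸ hp)
      exact Nat.Coprime.mul_left (hq p (mem_insert_of_mem hp)) ((Nat.coprime_primes hrp hp1).mpr hne)
    calc (r - w r) * (∏ p ∈ S, (p - w p)) * (D' / ∏ p ∈ S, p)
        = (r - w r) * ((∏ p ∈ S, (p - w p)) * (D' / ∏ p ∈ S, p)) := by ring
      _ ≤ #G * ((∏ p ∈ S, (p - w p)) * (D' / ∏ p ∈ S, p)) := Nat.mul_le_mul_right _ hGc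
      _ = ∑ c ∈ G, (∏ p ∈ S, (p - w p)) * (D' / ∏ p ∈ S, p) := by
          rw [sum_const, smul_eq_mul]
      _ ≤ ∑ c ∈ G, cnt S R (a + q * c) (q * r) D' := sum_le_sum h2
      _ ≤ _ := h1

/-- the primes up to `2 ^ k` -/
def pr (k : ℕ) : Finset ℕ := (range (2 ^ k + 1)).filter Nat.Prime

theorem mem_pr {k p : ℕ} : p ∈ pr k ↔ p ≤ 2 ^ k ∧ p.Prime := by
  simp [pr]

theorem pr_mono (k : ℕ) : pr k ⊆ pr (k + 1) := by
  intro p hp
  rw [mem_pr] at hp ⊢
  exact ⟨hp.1.trans (Nat.pow_le_pow_right (by norm_num) (by omega)), hp.2⟩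

/-- few primes between `2 ^ k` and `2 ^ (k+1)` -/
theorem card_dyadic (k : ℕ) : k * #(pr (k + 1) \ pr k) ≤ 4 * 2 ^ k := by
  have h1 : ∏ p ∈ pr (k + 1), p ≤ 4 ^ (2 ^ (k + 1)) := by
    have := primorial_le_four_pow (2 ^ (k + 1))
    unfold primorial at this
    exact this
  have h2 : ∏ p ∈ pr (k + 1) \ pr k, p ≤ ∏ p ∈ pr (k + 1), p := by
    apply Finset.prod_le_prod_of_subset_of_one_le' sdiff_subset
    intro p hp _
    exact (mem_pr.mp hp).2.one_lt.le
  have h3 : (2 ^ k) ^ #(pr (k + 1) \ pr k) ≤ ∏ p ∈ pr (k + 1) \ pr k, p := by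
    rw [← prod_const]
    apply prod_le_prod'
    intro p hp
    rw [mem_sdiff, mem_pr, mem_pr] at hp
    by_contra hc
    exact hp.2 ⟨by omega, hp.1.2⟩
  have h4 : 2 ^ (k * #(pr (k + 1) \ pr k)) ≤ 2 ^ (4 * 2 ^ k) := by
    calc 2 ^ (k * #(pr (k + 1) \ pr k)) = (2 ^ k) ^ #(pr (k + 1) \ pr k) := by rw [pow_mul]
      _ ≤ 4 ^ (2 ^ (k + 1)) := (h3.trans h2).trans h1
      _ = 2 ^ (4 * 2 ^ k) := by
          rw [show (4 : ℕ) = 2 ^ 2 by norm_num, ← pow_mul]
          congr 1
          ring
  exact (Nat.pow_le_pow_iff_right (by norm_num)).mp h4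

/-- the number of classes allowed to be removed modulo `p` -/
def ww (κ p : ℕ) : ℕ := if p ≤ κ then p - 1 else κ

theorem ww_lt {κ p : ℕ} (hp : p.Prime) : ww κ p < p := by
  unfold ww
  have := hp.pos
  split_ifs <;> omega

/-- the density of what is left -/
noncomputable def dens (κ k : ℕ) : ℝ := ∏ p ∈ pr k, (((p - ww κ p : ℕ) : ℝ) / p)

theorem dens_pos (κ k : ℕ) : 0 < dens κ k := by
  apply prod_pos
  intro p hp
  have hp' := (mem_pr.mp hp).2
  have h1 := ww_lt (κ := κ) hp'
  have h2 : (0 : ℝ) < ((p - ww κ p : ℕ) : ℝ) := by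
    have : 0 < p - ww κ p := by omega
    exact_mod_cast this
  have h3 : (0 : ℝ) < p := by exact_mod_cast hp'.pos
  positivity

theorem dens_eq (κ k : ℕ) :
    ((∏ p ∈ pr k, (p - ww κ p) : ℕ) : ℝ) = dens κ k * ((∏ p ∈ pr k, p : ℕ) : ℝ) := by
  unfold dens
  push_cast
  rw [← prod_mul_distrib]
  apply prod_congr rfl
  intro p hp
  have h3 : (p : ℝ) ≠ 0 := by exact_mod_cast (mem_pr.mp hp).2.ne_zero
  field_simp

theorem dens_step (κ k : ℕ) (hk : 16 * κ + 1 ≤ k) : 3 / 4 * dens κ k ≤ dens κ (k + 1) := by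
  have hk1 : (κ : ℝ) < 2 ^ k := by
    have h1 : κ < k := by omega
    have h2 : κ < 2 ^ k := h1.trans k.lt_two_pow_self
    exact_mod_cast h2
  have hsplit : dens κ (k + 1) = (∏ p ∈ pr (k + 1) \ pr k, (((p - ww κ p : ℕ) : ℝ) / p)) *
      dens κ k := by
    unfold dens
    rw [prod_sdiff (pr_mono k)]
  rw [hsplit]
  apply mul_le_mul_of_nonneg_right _ (dens_pos κ k).le
  have h2k : (0 : ℝ) < 2 ^ k := by positivity
  set m := #(pr (k + 1) \ pr k) with hm
  have hterm : ∀ p ∈ pr (k + 1) \ pr k, 1 - (κ : ℝ) / 2 ^ k ≤ ((p - ww κ p : ℕ) : ℝ) / p := by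
    intro p hp
    rw [mem_sdiff, mem_pr, mem_pr] at hp
    have hp2 : 2 ^ k < p := by
      by_contra hc
      exact hp.2 ⟨by omega, hp.1.2⟩
    have hpk : κ < p := by
      have h1 : κ < k := by omega
      exact (h1.trans k.lt_two_pow_self).trans hp2
    have e1 : ww κ p = κ := by
      unfold ww
      rw [if_neg (by omega)]
    rw [e1, Nat.cast_sub hpk.le]
    have hp0 : (0 : ℝ) < p := by exact_mod_cast hp.1.2.pos
    have hp3 : (2 : ℝ) ^ k ≤ p := by exact_mod_cast hp2.le
    rw [sub_div, div_self hp0.ne']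
    have : (κ : ℝ) / p ≤ κ / 2 ^ k := by
      apply div_le_div_of_nonneg_left (Nat.cast_nonneg _) h2k hp3
    linarith
  have h0 : (0 : ℝ) ≤ 1 - (κ : ℝ) / 2 ^ k := by
    rw [sub_nonneg, div_le_one h2k]
    exact hk1.le
  have h1 : (1 - (κ : ℝ) / 2 ^ k) ^ m ≤ ∏ p ∈ pr (k + 1) \ pr k, (((p - ww κ p : ℕ) : ℝ) / p) := by
    rw [hm, ← prod_const]
    exact prod_le_prod (fun _ _ => h0) hterm
  refine le_trans ?_ h1
  have h2 : 1 + (m : ℝ) * (-((κ : ℝ) / 2 ^ k)) ≤ (1 + (-((κ : ℝ) / 2 ^ k))) ^ m := by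
    apply one_add_mul_le_pow
    linarith
  have h3 : (m : ℝ) * ((κ : ℝ) / 2 ^ k) ≤ 1 / 4 := by
    have hc : (k : ℝ) * m ≤ 4 * 2 ^ k := by exact_mod_cast card_dyadic k
    have hk0 : (0 : ℝ) < k := by
      have : 0 < k := by omega
      exact_mod_cast this
    have hkk : (16 : ℝ) * κ ≤ k := by
      have : 16 * κ ≤ k := by omega
      exact_mod_cast this
    rw [mul_div_assoc', div_le_iff₀ h2k]
    have hm0 : (0 : ℝ) ≤ m := Nat.cast_nonneg _
    nlinarith
  have e1 : (1 + (-((κ : ℝ) / 2 ^ k))) = 1 - (κ : ℝ) / 2 ^ k := by ring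
  rw [e1] at h2
  linarith

/-- `2 ^ k * dens k` grows like `(3/2) ^ k` at least -/
theorem dens_growth (κ : ℕ) : ∃ c : ℝ, 0 < c ∧ ∀ k, c * (3 / 2) ^ k ≤ 2 ^ k * dens κ k := by
  set k₀ := 16 * κ + 1 with hk₀
  -- a constant good for all `k ≤ k₀`
  have hmin : ∃ c : ℝ, 0 < c ∧ ∀ k, k ≤ k₀ → c * (3 / 2) ^ k ≤ 2 ^ k * dens κ k := by
    have : ∀ n : ℕ, ∃ c : ℝ, 0 < c ∧ ∀ k, k ≤ n → c * (3 / 2) ^ k ≤ 2 ^ k * dens κ k := by
      intro n
      induction n with
      | zero =>
        refine ⟨dens κ 0, dens_pos κ 0, ?_⟩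
        intro k hk
        obtain rfl : k = 0 := by omega
        simp
      | succ n ih =>
        obtain ⟨c, hc, h⟩ := ih
        refine ⟨min c (dens κ (n + 1)), lt_min hc (dens_pos _ _), ?_⟩
        intro k hk
        rcases Nat.lt_or_ge k (n + 1) with h1 | h1
        · refine le_trans ?_ (h k (by omega))
          exact mul_le_mul_of_nonneg_right (min_le_left _ _) (by positivity)
        · obtain rfl : k = n + 1 := by omega
          have h2 : min c (dens κ (n + 1)) ≤ dens κ (n + 1) := min_le_right _ _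
          have h3 : (3 / 2 : ℝ) ^ (n + 1) ≤ 2 ^ (n + 1) := pow_le_pow_left₀ (by norm_num) (by norm_num) _
          have h4 := dens_pos κ (n + 1)
          have h5 : (0 : ℝ) < (3 / 2 : ℝ) ^ (n + 1) := by positivity
          nlinarith
    exact this k₀
  obtain ⟨c, hc, h⟩ := hmin
  refine ⟨c, hc, ?_⟩
  intro k
  rcases Nat.lt_or_ge k k₀ with h1 | h1
  · exact h k h1.le
  · induction k, h1 using Nat.le_induction with
    | base => exact h k₀ le_rfl
    | succ k hk ih =>
      have h2 := dens_step κ k hk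
      have h3 : (0 : ℝ) < 2 ^ k := by positivity
      calc c * (3 / 2) ^ (k + 1) = 3 / 2 * (c * (3 / 2) ^ k) := by ring
        _ ≤ 3 / 2 * (2 ^ k * dens κ k) := by linarith
        _ = 2 ^ (k + 1) * (3 / 4 * dens κ k) := by ring
        _ ≤ 2 ^ (k + 1) * dens κ (k + 1) := mul_le_mul_of_nonneg_left h2 (by positivity)

/-- the product of the primes up to `2 ^ k` -/
theorem prod_pr_le (k : ℕ) : ∏ p ∈ pr k, p ≤ 4 ^ (2 ^ k) := by
  have := primorial_le_four_pow (2 ^ k)
  unfold primorial at this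
  exact this

theorem prod_pr_pos (k : ℕ) : 0 < ∏ p ∈ pr k, p := by
  apply prod_pos
  intro p hp
  exact (mem_pr.mp hp).2.pos

end Pool.Agent.TH999.GCR
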