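import Pool.Agent.H399R2.Run
import Pool.Agent.TH999.GCR.Sieve

/-!
# Subtractive gcd recursions: records of the potential `(M+1) n + M x(n)`

Along a segment without jumps the potential grows by `1` per step; a jump by `g` at the end of a
waiting time `w` changes it in total by `w - M (g-1)`. If the waiting time for a jump divisible by
the prime `p` is at most `M p`, the potential passes a new level `Φ(s) + M j` only at a jump by a
prime `g = p` after a waiting time at least `M (p-1) + 1`, and then `j` lies in one of a few residue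
classes modulo `p`. Hence new levels are rare (sieve).
-/

set_option autoImplicit false

namespace Pool.Agent.TH999.GCR

open Finset Pool.Agent.H399R2

theorem cnt_succ (S : Finset ℕ) (R : ℕ → Finset ℕ) (J : ℕ) :
    cnt S R 1 1 (J + 1) ≤ cnt S R 1 1 J + 1 ∧
      (∀ p ∈ S, (J + 1) % p ∈ R p → cnt S R 1 1 (J + 1) ≤ cnt S R 1 1 J) := by
  classical
  unfold cnt
  rw [range_add_one, filter_insert]
  constructor
  · split_ifs
    · exact card_insert_le _ _
    · exact Nat.le_succ _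
  · intro p hp h
    rw [if_neg]
    intro h2
    have := h2 p hp
    rw [one_mul, Nat.add_comm] at this
    exact this h

/-- hypotheses on the segment: `per p` bounds the waiting time for a jump divisible by `p`;
`R p` contains the classes of the levels `j` which can be passed at a jump by `p` -/
structure Good (x : ℕ → ℕ) (V : ℕ → ℤ) (s e M κ : ℕ) (per : ℕ → ℕ) (R : ℕ → Finset ℕ) : Prop where
  seg : Seg x V s e
  per_pos : ∀ p : ℕ, p.Prime → 0 < per p
  per_dvd : ∀ p : ℕ, p.Prime → p ∣ per p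
  per_per : ∀ p : ℕ, p.Prime → ∀ n, s < n → (p : ℤ) ∣ V (n + per p) → (p : ℤ) ∣ V n
  classes : ∀ p : ℕ, p.Prime → per p ≤ M * (p - 1) ∨ (per p ≤ M * p ∧
    ∀ n, s < n → (p : ℤ) ∣ V n → ∀ j i : ℕ, i < M →
      (M + 1) * n ≡ (M + 1) * s + M * x s + M * j + i [MOD p] → n ≡ s + i [MOD M] → j % p ∈ R p)
  card_le : ∀ p : ℕ, p.Prime → #(R p) ≤ ww κ p

namespace Good

variable {x : ℕ → ℕ} {V : ℕ → ℤ} {s e M κ : ℕ} {per : ℕ → ℕ} {R : ℕ → Finset ℕ}

theorem records (h : Good x V s e M κ per R) (hM : 0 < M) (k : ℕ) :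
    ∀ n, s ≤ n → n ≤ e → ∃ l J, s ≤ l ∧ l ≤ n ∧
      (∀ i, l ≤ i → i < n → Int.gcd (x i) (V (i + 1)) = 1) ∧
      (M + 1) * l + M * x l < (M + 1) * s + M * x s + M * (J + 1) ∧
      (M * 2 ^ k + 1) * cnt (pr k) R 1 1 J ≤ l - s := by
  intro n hsn
  induction n, hsn using Nat.le_induction with
  | base =>
    intro _
    refine ⟨s, 0, le_rfl, le_rfl, fun i h1 h2 => absurd h1 (by omega), by omega, ?_⟩
    simp [cnt]
  | succ n hsn ih =>
    intro hne
    obtain ⟨l, J, hsl, hln, htr, hΦ, hU⟩ := ih (by omega)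
    have hstep := h.seg.step n hsn (by omega)
    have hg0 := h.seg.gcd_pos hsn (by omega : n < e)
    have hrunl := h.seg.run hsl (by omega : n ≤ e) htr
    have hxl : x l = x n + (n - l) := hrunl l le_rfl hln
    set g := Int.gcd (x n) (V (n + 1)) with hg
    by_cases hg1 : g = 1
    · refine ⟨l, J, hsl, by omega, ?_, hΦ, hU⟩
      intro i hi1 hi2
      rcases Nat.lt_succ_iff_lt_or_eq.mp hi2 with h3 | h3
      · exact htr i hi1 h3
      · subst h3; exact hg1
    -- a jump
    set p := Nat.minFac g with hp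
    have hpp : p.Prime := Nat.minFac_prime (by omega)
    have hpg : p ∣ g := Nat.minFac_dvd g
    have hple : p ≤ g := Nat.minFac_le (by omega)
    have hpx : (p : ℤ) ∣ (x n : ℤ) :=
      (Int.natCast_dvd_natCast.mpr hpg).trans (Int.gcd_dvd_left _ _)
    have hpV : (p : ℤ) ∣ V (n + 1) :=
      (Int.natCast_dvd_natCast.mpr hpg).trans (Int.gcd_dvd_right _ _)
    have hp2 := hpp.two_le
    have hwait : n + 1 - l ≤ per p := by
      by_contra hcon
      push Not at hcon
      have hper0 := h.per_pos p hpp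
      set i := n - per p with hi
      have hli : l ≤ i := by omega
      have hin : i ≤ n := by omega
      have hti := htr i hli (by omega)
      have hxi := hrunl i hli hin
      have h1 : (p : ℤ) ∣ (x i : ℤ) := by
        rw [hxi]
        have : n - i = per p := by omega
        rw [this]
        push_cast
        exact dvd_add hpx (Int.natCast_dvd_natCast.mpr (h.per_dvd p hpp))
      have h2 : (p : ℤ) ∣ V (i + 1) := by
        apply h.per_per p hpp (i + 1) (by omega)
        have : i + 1 + per p = n + 1 := by omega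
        rw [this]
        exact hpV
      have h3 : (p : ℤ) ∣ (Int.gcd (x i) (V (i + 1)) : ℤ) := Int.dvd_coe_gcd h1 h2
      rw [hti] at h3
      have h4 : p ∣ 1 := by exact_mod_cast h3
      exact hpp.one_lt.ne' (Nat.dvd_one.mp h4)
    -- the new potential
    have hnew : (M + 1) * (n + 1) + M * x (n + 1) + M * g =
        (M + 1) * l + M * x l + (n + 1 - l) + M := by
      obtain ⟨w, hw⟩ := Nat.exists_eq_add_of_le hln
      have e1 : n + 1 - l = w + 1 := by omega
      have e2 : n - l = w := by omega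
      rw [e1, hxl, e2]
      have e3 : x n = x (n + 1) + g := hstep.symm
      rw [e3, hw]
      ring
    by_cases hlev : (M + 1) * (n + 1) + M * x (n + 1) < (M + 1) * s + M * x s + M * (J + 1)
    · exact ⟨n + 1, J, by omega, le_rfl, fun i h1 h2 => absurd h1 (by omega), hlev, by omega⟩
    push Not at hlev
    have hwg : M * g < (n + 1 - l) + M := by omega
    have hMp : M * (p - 1) + M = M * p := by
      obtain ⟨q, hq⟩ : ∃ q, p = q + 1 := ⟨p - 1, by omega⟩
      rw [hq, Nat.add_sub_cancel]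
      ring
    have hMg : M * p ≤ M * g := Nat.mul_le_mul_left _ hple
    rcases h.classes p hpp with hirr | ⟨hreg1, hreg⟩
    · exfalso
      omega
    have hgp : g = p := by
      have h1 : M * g < M * (p + 1) := by
        rw [Nat.mul_add, Nat.mul_one]
        omega
      have h2 := Nat.lt_of_mul_lt_mul_left h1
      omega
    have hxp : p ∣ x (n + 1) := by
      have h1 : p ∣ x n := by exact_mod_cast hpx
      have h2 : x (n + 1) + g = x n := hstep
      rw [hgp] at h2
      exact (Nat.dvd_add_left (dvd_refl p)).mp (h2 ▸ h1)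
    obtain ⟨i, hi⟩ := Nat.exists_eq_add_of_le hlev
    have hiM : i < M := by
      have h1 : M * (J + 1) = M * J + M := by ring
      rw [hgp] at hnew
      omega
    have hj : (J + 1) % p ∈ R p := by
      apply hreg (n + 1) (by omega) hpV (J + 1) i hiM
      · rw [← hi]
        obtain ⟨c, hc⟩ := hxp
        rw [hc]
        have e1 : (M + 1) * (n + 1) + M * (p * c) = (M + 1) * (n + 1) + p * (M * c) := by ring
        rw [e1]
        exact (Nat.ModEq.symm (Nat.add_mul_mod_self_left _ _ _))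
      · have e1 : (M + 1) * (n + 1) + M * x (n + 1) = n + 1 + M * (n + 1 + x (n + 1)) := by ring
        have e2 : (M + 1) * s + M * x s + M * (J + 1) + i = s + i + M * (s + x s + (J + 1)) := by
          ring
        rw [e1, e2] at hi
        have h1 : (n + 1 + M * (n + 1 + x (n + 1))) % M = (s + i + M * (s + x s + (J + 1))) % M := by
          rw [hi]
        rw [Nat.add_mul_mod_self_left, Nat.add_mul_mod_self_left] at h1
        exact h1
    refine ⟨n + 1, J + 1, by omega, le_rfl, fun i h1 h2 => absurd h1 (by omega), ?_, ?_⟩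
    · have h1 : M * (J + 1 + 1) = M * (J + 1) + M := by ring
      omega
    · obtain ⟨hc1, hc2⟩ := cnt_succ (pr k) R J
      rcases Nat.lt_or_ge (2 ^ k) p with hpk | hpk
      · have h1 : (M * 2 ^ k + 1) * cnt (pr k) R 1 1 (J + 1) ≤
            (M * 2 ^ k + 1) * (cnt (pr k) R 1 1 J + 1) := Nat.mul_le_mul_left _ hc1
        have h2 : (M * 2 ^ k + 1) * (cnt (pr k) R 1 1 J + 1) =
            (M * 2 ^ k + 1) * cnt (pr k) R 1 1 J + (M * 2 ^ k + 1) := by ring
        have h3 : M * 2 ^ k ≤ M * (p - 1) := Nat.mul_le_mul_left _ (by omega)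
        rw [hgp] at hwg
        omega
      · have h1 := hc2 p (mem_pr.mpr ⟨hpk, hpp⟩) hj
        have h2 : (M * 2 ^ k + 1) * cnt (pr k) R 1 1 (J + 1) ≤
            (M * 2 ^ k + 1) * cnt (pr k) R 1 1 J := Nat.mul_le_mul_left _ h1
        omega

end Good

/-- **Main inequality.** There is `c > 0` (depending on `M` and `κ` only) such that the last jump
`l` before the end of a segment satisfies, for every `k`,
`Φ(l) ≤ Φ(s) + M (4 ^ 2 ^ k + 1) + (l - s) / (c (3/2)^k)` for the potential `Φ(n) = (M+1) n + M x(n)`. -/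
theorem main (M κ : ℕ) (hM : 0 < M) : ∃ c : ℝ, 0 < c ∧ ∀ (x : ℕ → ℕ) (V : ℕ → ℤ) (s e : ℕ)
    (per : ℕ → ℕ) (R : ℕ → Finset ℕ), Good x V s e M κ per R → ∀ k : ℕ,
    ∃ l, s ≤ l ∧ l ≤ e ∧ (∀ i, l ≤ i → i < e → Int.gcd (x i) (V (i + 1)) = 1) ∧
      ((M + 1) * l + M * x l : ℝ) ≤ (M + 1) * s + M * x s + M * (4 ^ (2 ^ k) + 1) +
        (l - s : ℝ) / (c * (3 / 2) ^ k) := by
  obtain ⟨c, hc, hgrow⟩ := dens_growth κ
  refine ⟨c, hc, ?_⟩
  intro x V s e per R h k
  obtain ⟨l, J, hsl, hle, htr, hΦ, hU⟩ := h.records hM k e h.seg.le le_rfl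
  refine ⟨l, hsl, hle, htr, ?_⟩
  have hlow := cnt_lower R (ww κ) (pr k) (fun p hp => (mem_pr.mp hp).2)
    (fun p hp => h.card_le p (mem_pr.mp hp).2) 1 1 J (fun p _ => Nat.coprime_one_left p)
  set Q := ∏ p ∈ pr k, p with hQ
  have hQ0 : 0 < Q := prod_pr_pos k
  have hQ4 : Q ≤ 4 ^ (2 ^ k) := prod_pr_le k
  have hQr : (0 : ℝ) < Q := by exact_mod_cast hQ0
  have hJQ : (J : ℝ) ≤ Q * ((J / Q : ℕ) : ℝ) + Q := by
    have h1 : J < Q * (J / Q) + Q := by
      have := Nat.lt_mul_div_succ J hQ0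
      rwa [Nat.mul_add, Nat.mul_one] at this
    have h2 : ((J : ℕ) : ℝ) ≤ ((Q * (J / Q) + Q : ℕ) : ℝ) := by exact_mod_cast h1.le
    push_cast at h2
    exact h2
  have hlow' : dens κ k * (Q * ((J / Q : ℕ) : ℝ)) ≤ (cnt (pr k) R 1 1 J : ℝ) := by
    have h1 : (((∏ p ∈ pr k, (p - ww κ p)) * (J / Q) : ℕ) : ℝ) ≤ (cnt (pr k) R 1 1 J : ℝ) := by
      exact_mod_cast hlow
    rw [Nat.cast_mul, dens_eq] at h1
    rw [← mul_assoc]
    exact h1
  have hU' : ((M : ℝ) * 2 ^ k + 1) * (cnt (pr k) R 1 1 J : ℝ) ≤ (l : ℝ) - s := by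
    have h1 : (((M * 2 ^ k + 1) * cnt (pr k) R 1 1 J + s : ℕ) : ℝ) ≤ ((l : ℕ) : ℝ) := by
      have : (M * 2 ^ k + 1) * cnt (pr k) R 1 1 J + s ≤ l := by omega
      exact_mod_cast this
    push_cast at h1
    linarith
  have hMr : (1 : ℝ) ≤ M := by exact_mod_cast hM
  have hden : 0 < c * (3 / 2 : ℝ) ^ k := by positivity
  have hls : (0 : ℝ) ≤ (l : ℝ) - s := by
    have : (s : ℝ) ≤ l := by exact_mod_cast hsl
    linarith
  -- `M c (3/2)^k (J - Q) ≤ l - s`
  have hkey : (M : ℝ) * (c * (3 / 2) ^ k) * (Q * ((J / Q : ℕ) : ℝ)) ≤ (l : ℝ) - s := by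
    have h0 : (0 : ℝ) ≤ Q * ((J / Q : ℕ) : ℝ) := by positivity
    have h1 := hgrow k
    have h2 : (0 : ℝ) < 2 ^ k := by positivity
    have hcnt0 : (0 : ℝ) ≤ (cnt (pr k) R 1 1 J : ℝ) := Nat.cast_nonneg _
    calc (M : ℝ) * (c * (3 / 2) ^ k) * (Q * ((J / Q : ℕ) : ℝ))
        ≤ (M : ℝ) * (2 ^ k * dens κ k) * (Q * ((J / Q : ℕ) : ℝ)) := by
          apply mul_le_mul_of_nonneg_right _ h0
          apply mul_le_mul_of_nonneg_left h1 (by linarith)
      _ = (M : ℝ) * 2 ^ k * (dens κ k * (Q * ((J / Q : ℕ) : ℝ))) := by ring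
      _ ≤ (M : ℝ) * 2 ^ k * (cnt (pr k) R 1 1 J : ℝ) := by
          apply mul_le_mul_of_nonneg_left hlow' (by positivity)
      _ ≤ ((M : ℝ) * 2 ^ k + 1) * (cnt (pr k) R 1 1 J : ℝ) := by nlinarith
      _ ≤ _ := hU'
  have hΦ' : ((M + 1) * l + M * x l : ℝ) ≤ (M + 1) * s + M * x s + M * (J + 1) := by
    have h1 : (((M + 1) * l + M * x l : ℕ) : ℝ) ≤
        (((M + 1) * s + M * x s + M * (J + 1) : ℕ) : ℝ) := by exact_mod_cast hΦ.le
    push_cast at h1
    exact h1
  have h5 : (M : ℝ) * (Q * ((J / Q : ℕ) : ℝ)) ≤ ((l : ℝ) - s) / (c * (3 / 2) ^ k) := by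
    rw [le_div_iff₀ hden]
    calc (M : ℝ) * (Q * ((J / Q : ℕ) : ℝ)) * (c * (3 / 2) ^ k)
        = (M : ℝ) * (c * (3 / 2) ^ k) * (Q * ((J / Q : ℕ) : ℝ)) := by ring
      _ ≤ _ := hkey
  have h6 : (Q : ℝ) ≤ 4 ^ (2 ^ k) := by exact_mod_cast hQ4
  have h7 : (M : ℝ) * (J + 1) ≤ M * (Q * ((J / Q : ℕ) : ℝ)) + M * (4 ^ (2 ^ k) + 1) := by
    have : (J : ℝ) + 1 ≤ Q * ((J / Q : ℕ) : ℝ) + (4 ^ (2 ^ k) + 1) := by linarith
    calc (M : ℝ) * (J + 1) ≤ M * (Q * ((J / Q : ℕ) : ℝ) + (4 ^ (2 ^ k) + 1)) :=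
          mul_le_mul_of_nonneg_left this (by linarith)
      _ = _ := by ring
  linarith

end Pool.Agent.TH999.GCR
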